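import Mathlib
import Pool.Agent.Y315.OP.Stm

set_option autoImplicit false

open MeasureTheory Filter Topology
open scoped ContDiff ENNReal

namespace Pool.Agent.Y310.OP

open Pool.Agent.Y315.OP

variable {d : ℕ}

theorem cont_lap {η : E d → ℝ} (h : TF η) : Continuous (lap η) := by
  have h1 : ∀ i : Fin d, ContDiff ℝ ∞ (fun y => fderiv ℝ η y (EuclideanSpace.single i 1)) := by
    intro i
    exact (h.1.fderiv_right (m := ∞) (by simp)).clm_apply contDiff_const
  unfold lap
  refine continuous_finset_sum _ fun i _ => ?_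
  exact (((h1 i).continuous_fderiv (by simp)).clm_apply continuous_const)

theorem supp_lap {η : E d → ℝ} (h : TF η) : HasCompactSupport (lap η) := by
  have h2 := h.2
  refine HasCompactSupport.intro h2 fun x hx => ?_
  unfold lap
  have hU : (tsupport η)ᶜ ∈ 𝓝 x := (isClosed_tsupport η).isOpen_compl.mem_nhds hx
  have h0 : η =ᶠ[𝓝 x] fun _ => 0 := by
    filter_upwards [hU] with y hy
    exact image_eq_zero_of_notMem_tsupport hy
  refine Finset.sum_eq_zero fun i _ => ?_
  have h1 : (fun y => fderiv ℝ η y (EuclideanSpace.single i 1)) =ᶠ[𝓝 x] fun _ => 0 := by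
    filter_upwards [h0.eventuallyEq_nhds] with y hy
    rw [hy.fderiv_eq]
    simp
  rw [h1.fderiv_eq]
  simp

theorem int_mul {ρ η : E d → ℝ} (hρ : Integrable ρ) (hc : Continuous η)
    (hs : HasCompactSupport η) : Integrable (fun x => ρ x * η x) := by
  obtain ⟨C, hC⟩ := hs.exists_bound_of_continuous hc
  exact hρ.mul_bdd (c := C) hc.aestronglyMeasurable (Eventually.of_forall hC)

theorem pow_le_one_add {t a : ℝ} (ht : 0 ≤ t) (ha : 0 < a) (ha1 : a < 1) : t ^ a ≤ 1 + t := by
  rcases le_total t 1 with h | h
  · have := Real.rpow_le_one ht h ha.le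
    linarith
  · have : t ^ a ≤ t ^ (1 : ℝ) := Real.rpow_le_rpow_of_exponent_le h ha1.le
    rw [Real.rpow_one] at this
    linarith

theorem int_pow {ρ η : E d → ℝ} {a : ℝ} (hρ : Integrable ρ) (h0 : ∀ x, 0 ≤ ρ x) (ha : 0 < a)
    (ha1 : a < 1) (hc : Continuous η) (hs : HasCompactSupport η) :
    Integrable (fun x => ρ x ^ a * η x) := by
  have h1 : Integrable (fun x => (1 + ρ x) * ‖η x‖) := by
    have h2 : Integrable (fun x => ‖η x‖) := (hc.integrable_of_hasCompactSupport hs).norm
    have h3 := int_mul (η := fun x => ‖η x‖) hρ hc.norm hs.norm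
    refine (h2.add h3).congr (Eventually.of_forall fun x => ?_)
    simp only [Pi.add_apply]; ring
  refine h1.mono ((hρ.1.aemeasurable.pow_const a).aestronglyMeasurable.mul
    hc.aestronglyMeasurable) (Eventually.of_forall fun x => ?_)
  rw [norm_mul, norm_mul, norm_norm]
  refine mul_le_mul_of_nonneg_right ?_ (norm_nonneg _)
  rw [Real.norm_eq_abs, Real.norm_eq_abs, abs_of_nonneg (Real.rpow_nonneg (h0 x) a),
    abs_of_nonneg (by linarith [h0 x])]
  exact pow_le_one_add (h0 x) ha ha1

theorem pow_ge {t M a : ℝ} (ht : 0 ≤ t) (htM : t ≤ M) (ha : 0 < a) (ha1 : a < 1) :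
    M ^ (a - 1) * t ≤ t ^ a := by
  rcases ht.eq_or_lt with h | h
  · rw [← h, mul_zero, Real.zero_rpow ha.ne']
  · have h1 : t ^ a = t ^ (a - 1) * t := by
      rw [← Real.rpow_add_one h.ne']; ring_nf
    rw [h1]
    refine mul_le_mul_of_nonneg_right ?_ ht
    exact Real.rpow_le_rpow_of_nonpos h htM (by linarith)

theorem dead (h1 : S_INF) (h2 : S_STEP) : S_DEAD := by
  intro d ρ κ a b hd hκ ha ha1 hb hρ h0 hsub
  have hdR : (0 : ℝ) < d := by exact_mod_cast hd
  -- the subsolution property
  have hinf := h1 d ρ b hd hb hρ h0 (by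
    intro η hη hη0
    have e1 := hsub η hη hη0
    have i1 := int_mul hρ hη.1.continuous hη.2
    have i2 := int_mul hρ (cont_lap hη) (supp_lap hη)
    have i3 := int_pow hρ h0 ha ha1 hη.1.continuous hη.2
    have e2 : ∫ x, ρ x * (lap η x + b * η x) = (∫ x, ρ x * lap η x) + b * ∫ x, ρ x * η x := by
      rw [← integral_const_mul, ← integral_add i2 (i1.const_mul b)]
      congr 1; ext x; ring
    have e3 : ∫ x, (κ * ρ x ^ a - b * ρ x) * η x
        = κ * (∫ x, ρ x ^ a * η x) - b * ∫ x, ρ x * η x := by
      rw [← integral_const_mul, ← integral_const_mul, ← integral_sub (i3.const_mul κ)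
        (i1.const_mul b)]
      congr 1; ext x; ring
    have e4 : 0 ≤ ∫ x, ρ x ^ a * η x :=
      integral_nonneg fun x => mul_nonneg (Real.rpow_nonneg (h0 x) a) (hη0 x)
    rw [e2]
    rw [e3] at e1
    have := mul_nonneg hκ.le e4
    linarith)
  -- constants
  set M0 : ℝ := (2 * (b + 1) / κ) ^ (1 / (a - 1)) with hM0
  have hpos : 0 < 2 * (b + 1) / κ := by positivity
  have hM0pos : 0 < M0 := Real.rpow_pos_of_pos hpos _
  have hM0pow : M0 ^ (a - 1) = 2 * (b + 1) / κ := by
    rw [hM0, ← Real.rpow_mul hpos.le, one_div, inv_mul_cancel₀ (by linarith), Real.rpow_one]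
  set q : ℝ := (2 : ℝ) ^ (1 - a) with hq
  have hq1 : 1 < q := Real.one_lt_rpow (by norm_num) (by linarith)
  have hq0 : 0 < q := by linarith
  set s : ℝ := (Real.sqrt q)⁻¹ with hs
  have hsq : 1 < Real.sqrt q := by
    rw [show (1 : ℝ) = Real.sqrt 1 by simp]
    exact Real.sqrt_lt_sqrt (by norm_num) hq1
  have hs0 : 0 < s := by rw [hs]; positivity
  have hs1 : s < 1 := by rw [hs]; exact inv_lt_one_of_one_lt₀ hsq
  have hss : s ^ 2 * q = 1 := by
    rw [hs, inv_pow, Real.sq_sqrt hq0.le]; field_simp
  set c : ℝ := Real.sqrt (64 * d / (b + 1)) with hc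
  have hcpos : 0 < c := Real.sqrt_pos.2 (by positivity)
  have hcc : (b + 1) * c ^ 2 = 64 * d := by
    rw [hc, Real.sq_sqrt (by positivity)]; field_simp
  obtain ⟨R0, hR0⟩ := hinf M0 hM0pos
  let M : ℕ → ℝ := fun j => M0 * (1 / 2) ^ j
  let bb : ℕ → ℝ := fun j => (b + 1) * q ^ j
  let r : ℕ → ℝ := fun j => c * s ^ j
  have hMpos : ∀ j, 0 < M j := fun j => by positivity
  have hbbpos : ∀ j, 0 < bb j := fun j => by positivity
  have hrpos : ∀ j, 0 < r j := fun j => by positivity
  have hbr : ∀ j, bb j * r j ^ 2 = 64 * d := by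
    intro j
    have : bb j * r j ^ 2 = ((b + 1) * c ^ 2) * (s ^ 2 * q) ^ j := by
      simp only [bb, r]; rw [mul_pow, mul_pow]; ring
    rw [this, hss, hcc, one_pow, mul_one]
  have hMpow : ∀ j, κ * (M j) ^ (a - 1) = 2 * bb j := by
    intro j
    simp only [M, bb]
    rw [Real.mul_rpow hM0pos.le (by positivity), hM0pow]
    have : (((1 : ℝ) / 2) ^ j) ^ (a - 1) = q ^ j := by
      rw [hq, ← Real.rpow_natCast, ← Real.rpow_natCast, ← Real.rpow_mul (by norm_num),
        ← Real.rpow_mul (by norm_num), one_div, Real.inv_rpow (by norm_num),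
        ← Real.rpow_neg (by norm_num)]
      congr 1; ring
    rw [this]; field_simp
  -- the induction
  have key : ∀ j : ℕ, ∀ᵐ x : E d, R0 + ∑ i ∈ Finset.range j, r i < ‖x‖ → ρ x ≤ M j := by
    intro j
    induction j with
    | zero => simpa [M] using hR0
    | succ j ih =>
      set R := R0 + ∑ i ∈ Finset.range j, r i with hR
      have hRs : R0 + ∑ i ∈ Finset.range (j + 1), r i = R + r j := by
        rw [Finset.sum_range_succ, hR]; ring
      rw [hRs]
      have hloc : ∀ x₀ : E d, R + r j < ‖x₀‖ →
          ∀ᵐ x : E d, x ∈ Metric.ball x₀ (r j / 2) → ρ x ≤ M (j + 1) := by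
        intro x₀ hx₀
        have hball : ∀ x ∈ Metric.ball x₀ (r j), R < ‖x‖ := by
          intro x hx
          rw [Metric.mem_ball, dist_eq_norm] at hx
          have := norm_sub_norm_le x₀ x
          rw [norm_sub_rev] at this
          linarith
        have hae : ∀ᵐ x : E d, x ∈ Metric.ball x₀ (r j) → ρ x ≤ M j := by
          filter_upwards [ih] with x hx hxb
          exact hx (hball x hxb)
        have hst := h2 d ρ x₀ (r j) (M j) (bb j) hd (hrpos j) (hbbpos j) hρ h0 hae (by
          intro η hη hη0 hsup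
          refine le_trans ?_ (hsub η hη hη0)
          rw [← integral_const_mul]
          have i1 := int_mul hρ hη.1.continuous hη.2
          have i3 := int_pow hρ h0 ha ha1 hη.1.continuous hη.2
          refine integral_mono_ae (i1.const_mul _) ?_ ?_
          · refine ((i3.const_mul κ).sub (i1.const_mul b)).congr
              (Eventually.of_forall fun x => ?_)
            simp only [Pi.sub_apply]; ring
          · filter_upwards [hae] with x hx
            by_cases hxs : x ∈ tsupport η
            · have hb1 := hx (hsup hxs)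
              have e1 := pow_ge (h0 x) hb1 ha ha1
              have e2 : κ * (M j ^ (a - 1) * ρ x) ≤ κ * ρ x ^ a :=
                mul_le_mul_of_nonneg_left e1 hκ.le
              have e3 : κ * (M j ^ (a - 1) * ρ x) = 2 * bb j * ρ x := by
                rw [← mul_assoc, hMpow j]
              have e4 : b ≤ bb j := by
                simp only [bb]
                have : 1 ≤ q ^ j := one_le_pow₀ hq1.le
                nlinarith
              have e5 : b * ρ x ≤ bb j * ρ x := mul_le_mul_of_nonneg_right e4 (h0 x)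
              have e6 : bb j * ρ x ≤ κ * ρ x ^ a - b * ρ x := by
                rw [e3] at e2; linarith
              have := mul_le_mul_of_nonneg_right e6 (hη0 x)
              calc bb j * (ρ x * η x) = bb j * ρ x * η x := by ring
                _ ≤ _ := this
            · have : η x = 0 := image_eq_zero_of_notMem_tsupport hxs
              simp [this])
        have hval : 32 * (d : ℝ) * M j / (bb j * r j ^ 2) = M (j + 1) := by
          rw [hbr j]
          simp only [M]
          rw [pow_succ]
          field_simp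
          norm_num
        rw [hval] at hst
        exact hst
      -- countably many balls
      have hnull : volume {x : E d | R + r j < ‖x‖ ∧ ¬ ρ x ≤ M (j + 1)} = 0 := by
        refine measure_null_of_locally_null _ fun x hx => ?_
        refine ⟨Metric.ball x (r j / 2) ∩ {x : E d | R + r j < ‖x‖ ∧ ¬ ρ x ≤ M (j + 1)}, ?_, ?_⟩
        · rw [Set.inter_comm]
          exact inter_mem self_mem_nhdsWithin
            (mem_nhdsWithin_of_mem_nhds (Metric.ball_mem_nhds x (by have := hrpos j; linarith)))
        · have := hloc x hx.1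
          rw [ae_iff] at this
          refine measure_mono_null ?_ this
          intro y hy
          simp only [Set.mem_setOf_eq, Classical.not_imp]
          exact ⟨hy.1, hy.2.2⟩
      rw [ae_iff]
      refine measure_mono_null ?_ hnull
      intro y hy
      simpa only [Set.mem_setOf_eq, Classical.not_imp] using hy
  refine ⟨R0 + c * (1 - s)⁻¹, ?_⟩
  have hall := ae_all_iff.2 key
  filter_upwards [hall] with x hx hxR
  have hsum : ∀ j, ∑ i ∈ Finset.range j, r i ≤ c * (1 - s)⁻¹ := by
    intro j
    have e1 : ∑ i ∈ Finset.range j, r i = c * ∑ i ∈ Finset.range j, s ^ i := by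
      rw [Finset.mul_sum]
    rw [e1]
    refine mul_le_mul_of_nonneg_left ?_ hcpos.le
    rw [← tsum_geometric_of_lt_one hs0.le hs1]
    exact (summable_geometric_of_lt_one hs0.le hs1).sum_le_tsum _
      (fun i _ => by positivity)
  have hle : ∀ j, ρ x ≤ M j := fun j => hx j (lt_of_le_of_lt (by linarith [hsum j]) hxR)
  have hlim : Tendsto M atTop (𝓝 0) := by
    have := (tendsto_pow_atTop_nhds_zero_of_lt_one (r := (1 : ℝ) / 2) (by norm_num)
      (by norm_num)).const_mul M0
    simpa [M] using this
  exact le_antisymm (ge_of_tendsto' hlim hle) (h0 x)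

end Pool.Agent.Y310.OP
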